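import Pool.Agent.helper16.GHS.Spec

set_option autoImplicit false

namespace Pool.Agent.helper16.GHS

open Equiv Finset

theorem ORB_alt {B : Type} [AddCommGroup B] (b : B) (n : ℕ) (hn : Even n) :
    ∑ i ∈ range n, ((-1 : ℤ) ^ i) • b = 0 := by
  obtain ⟨m, rfl⟩ := hn
  induction m with
  | zero => simp
  | succ m ih =>
    have e : m + 1 + (m + 1) = (m + m) + 1 + 1 := by ring
    rw [e, sum_range_succ, sum_range_succ, ih, zero_add, ← add_smul]
    have : ((-1 : ℤ) ^ (m + m)) + (-1) ^ (m + m + 1) = 0 := by rw [pow_succ]; ring
    rw [this, zero_smul]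

theorem ORB_per {X : Type} (P : Perm X) (S : Finset X) (hS : ∀ x, P x ∈ S ↔ x ∈ S) (x : X)
    (hx : x ∈ S) : 0 < Function.minimalPeriod P x := by
  classical
  apply Function.minimalPeriod_pos_of_mem_periodicPts
  have hmap : ∀ y : {y // y ∈ S}, P y ∈ S := fun y => (hS y).2 y.2
  set Q : {y // y ∈ S} → {y // y ∈ S} := fun y => ⟨P y, hmap y⟩ with hQ
  have hQi : Function.Injective Q := by
    intro y z h
    have h' : P y = P z := congrArg Subtype.val h
    exact Subtype.ext (P.injective h')
  obtain ⟨n, hn, hn'⟩ := Function.Injective.mem_periodicPts hQi ⟨x, hx⟩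
  refine ⟨n, hn, ?_⟩
  have hit : ∀ (k : ℕ) (y : {y // y ∈ S}), ((Q^[k] y : {y // y ∈ S}) : X) = (P : X → X)^[k] y := by
    intro k
    induction k with
    | zero => intro y; rfl
    | succ k ih =>
      intro y
      rw [Function.iterate_succ_apply, Function.iterate_succ_apply, ih]
  have h2 := hit n ⟨x, hx⟩
  have h3 : Q^[n] ⟨x, hx⟩ = ⟨x, hx⟩ := hn'
  rw [h3] at h2
  exact h2.symm

theorem ORB : ORB_stmt := by
  classical
  intro X B _ _ P f S hf hS hE
  induction S using Finset.strongInduction with
  | H S ih =>
    rcases S.eq_empty_or_nonempty with rfl | ⟨x, hx⟩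
    · simp
    have hn := ORB_per P S hS x hx
    set n := Function.minimalPeriod P x with hndef
    set T : Finset X := (range n).image (fun i => (P : X → X)^[i] x) with hT
    have hPn : (P : X → X)^[n] x = x := Function.isPeriodicPt_minimalPeriod P x
    have hitS : ∀ i : ℕ, (P : X → X)^[i] x ∈ S := by
      intro i
      induction i with
      | zero => exact hx
      | succ i ih' => rw [Function.iterate_succ_apply']; exact (hS _).2 ih'
    have hTS : T ⊆ S := by
      intro y hy
      obtain ⟨i, -, rfl⟩ := mem_image.1 hy
      exact hitS i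
    have hTinv : ∀ y, P y ∈ T ↔ y ∈ T := by
      intro y
      constructor
      · intro hy
        obtain ⟨i, hi, hiy⟩ := mem_image.1 hy
        have hi' : i < n := by simpa using hi
        rcases Nat.eq_zero_or_pos i with h0 | h0
        · refine mem_image.2 ⟨n - 1, by simpa using (by omega : n - 1 < n), ?_⟩
          apply P.injective
          have : (P : X → X)^[n - 1 + 1] x = x := by
            rw [show n - 1 + 1 = n by omega]; exact hPn
          rw [Function.iterate_succ_apply'] at this
          rw [this, ← hiy, h0]; rfl
        · refine mem_image.2 ⟨i - 1, by simpa using (by omega : i - 1 < n), ?_⟩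
          apply P.injective
          have : P ((P : X → X)^[i - 1] x) = (P : X → X)^[i - 1 + 1] x := by
            rw [Function.iterate_succ_apply']
          rw [this, show i - 1 + 1 = i by omega]; exact hiy
      · intro hy
        obtain ⟨i, hi, rfl⟩ := mem_image.1 hy
        have hi' : i < n := by simpa using hi
        rw [← Function.iterate_succ_apply' (P : X → X)]
        rcases Nat.lt_or_ge (i + 1) n with h | h
        · exact mem_image.2 ⟨i + 1, by simpa using h, rfl⟩
        · have : i + 1 = n := by omega
          rw [Nat.succ_eq_add_one, this, hPn]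
          exact mem_image.2 ⟨0, by simpa using hn, rfl⟩
    have hfi : ∀ i : ℕ, f ((P : X → X)^[i] x) = ((-1 : ℤ) ^ i) • f x := by
      intro i
      induction i with
      | zero => simp
      | succ i ih' =>
        rw [Function.iterate_succ_apply', hf, ih', pow_succ, mul_comm, mul_smul, neg_one_smul]
    have hsumT : ∑ y ∈ T, f y = 0 := by
      rw [hT, sum_image]
      · rw [sum_congr rfl fun i _ => hfi i]
        exact ORB_alt _ _ (hE x hx)
      · intro i hi j hj hij
        have hi' : i < n := by simpa using hi
        have hj' : j < n := by simpa using hj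
        exact Function.iterate_injOn_Iio_minimalPeriod (f := (P : X → X)) (x := x) hi' hj' hij
    have hxT : x ∈ T := mem_image.2 ⟨0, by simpa using hn, rfl⟩
    have hss : S \ T ⊂ S := by
      refine ⟨sdiff_subset, fun h => ?_⟩
      have := h hx
      rw [mem_sdiff] at this
      exact this.2 hxT
    rw [← sum_sdiff hTS, hsumT, add_zero]
    refine ih (S \ T) hss ?_ ?_
    · intro y
      rw [mem_sdiff, mem_sdiff, hS, hTinv]
    · intro y hy
      exact hE y (mem_sdiff.1 hy).1

end Pool.Agent.helper16.GHS
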