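import Pool.Agent.helper16.GHS.Spec

set_option autoImplicit false

namespace Pool.Agent.helper16.GHS

open Equiv Finset

theorem PAR_image {V : Type} [Fintype V] [DecidableEq V] (σ : Perm V) (v : V) :
    ((range (Function.minimalPeriod σ v)).image fun i => (σ ^ i) v) =
      univ.filter (fun x => σ.SameCycle v x) := by
  classical
  ext x
  simp only [mem_image, mem_range, mem_filter, mem_univ, true_and]
  constructor
  · rintro ⟨i, -, rfl⟩
    exact ⟨(i : ℤ), by simp⟩
  · intro h
    obtain ⟨n, hn⟩ := h.exists_nat_pow_eq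
    have hpos : 0 < Function.minimalPeriod σ v := by
      apply Function.minimalPeriod_pos_of_mem_periodicPts
      exact Function.Injective.mem_periodicPts σ.injective v
    refine ⟨n % Function.minimalPeriod σ v, Nat.mod_lt _ hpos, ?_⟩
    have h1 := Function.iterate_mod_minimalPeriod_eq (f := (σ : V → V)) (x := v) (n := n)
    rw [Equiv.Perm.iterate_eq_pow, Equiv.Perm.iterate_eq_pow] at h1
    rw [h1, hn]

theorem PAR_prod {V : Type} [Fintype V] [DecidableEq V] (σ : Perm V) (c : V → ℤ) (v : V) :
    ∏ x ∈ univ.filter (fun x => σ.SameCycle v x), c x = orbC σ c v := by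
  classical
  rw [← PAR_image, orbC, prod_image]
  intro i hi j hj hij
  have hi' : i < Function.minimalPeriod σ v := by simpa using hi
  have hj' : j < Function.minimalPeriod σ v := by simpa using hj
  refine Function.iterate_injOn_Iio_minimalPeriod (f := (σ : V → V)) (x := v) hi' hj' ?_
  simpa [Equiv.Perm.iterate_eq_pow] using hij

theorem PAR : PAR_stmt := by
  classical
  intro V _ _ σ c w h1 h2
  set O : V → Finset V := fun v => univ.filter (fun x => σ.SameCycle v x) with hO
  have hmem : ∀ v x, x ∈ O v ↔ σ.SameCycle v x := by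
    intro v x; simp [hO]
  have hself : ∀ v, v ∈ O v := fun v => (hmem v v).2 (Equiv.Perm.SameCycle.refl _ _)
  have hOeq : ∀ v x, O x = O v ↔ σ.SameCycle v x := by
    intro v x
    constructor
    · intro h
      have : x ∈ O v := by rw [← h]; exact hself x
      exact (hmem v x).1 this
    · intro h
      ext y
      rw [hmem, hmem]
      exact ⟨fun h' => h.trans h', fun h' => h.symm.trans h'⟩
  have hprod : ∀ v, ∏ x ∈ O v, c x = orbC σ c v := fun v => PAR_prod σ c v
  have horb : ∀ v x, σ.SameCycle v x → orbC σ c x = orbC σ c v := by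
    intro v x h
    rw [← hprod, ← hprod, (hOeq v x).2 h]
  have hpow : ∀ v i, (σ.SameCycle v ((σ ^ (i : ℕ)) v)) := fun v i => ⟨(i : ℤ), by simp⟩
  have hw : ∀ v, orbC σ c v = -1 → ∀ i : ℕ, w ((σ ^ i) v) = (σ ^ i) (w v) := by
    intro v hv i
    induction i with
    | zero => simp
    | succ i ih =>
      have h3 : orbC σ c ((σ ^ i) v) = -1 := by rw [horb v _ (hpow v i), hv]
      have h4 := (h2 _ h3).2.2.1
      rw [pow_succ', Equiv.Perm.mul_apply, Equiv.Perm.mul_apply, h4, ih]
  have hOw : ∀ v x, orbC σ c v = -1 → O x = O v → O (w x) = O (w v) := by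
    intro v x hv hx
    obtain ⟨i, hi⟩ := ((hOeq v x).1 hx).exists_nat_pow_eq
    rw [hOeq, ← hi, hw v hv i]
    exact hpow _ i
  set F : Finset V → ℤ := fun s => ∏ x ∈ s, c x with hF
  have hall : ∏ v, c v = ∏ s ∈ univ.image O, F s := by
    rw [← Finset.prod_fiberwise_of_maps_to (s := univ) (t := univ.image O) (g := O)
      (fun v _ => mem_image_of_mem _ (mem_univ v))]
    refine prod_congr rfl fun s hs => ?_
    obtain ⟨v, -, rfl⟩ := mem_image.1 hs
    refine prod_congr ?_ fun _ _ => rfl
    ext x
    rw [mem_filter, hmem, hOeq]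
    simp
  rw [hall]
  set g : Finset V → Finset V := fun s =>
    if h : ∃ v, O v = s ∧ orbC σ c v = -1 then O (w h.choose) else s with hg
  have hgv : ∀ v, orbC σ c v = -1 → g (O v) = O (w v) := by
    intro v hv
    have h : ∃ v', O v' = O v ∧ orbC σ c v' = -1 := ⟨v, rfl, hv⟩
    rw [hg]
    simp only [dif_pos h]
    exact hOw v _ hv h.choose_spec.1
  have hgid : ∀ s, (¬ ∃ v, O v = s ∧ orbC σ c v = -1) → g s = s := by
    intro s hs
    rw [hg]
    simp only [dif_neg hs]
  have hcase : ∀ v, orbC σ c v = 1 → g (O v) = O v := by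
    intro v hv
    apply hgid
    rintro ⟨v', h3, h4⟩
    have := horb v v' ((hOeq v v').1 h3)
    rw [h4, hv] at this
    norm_num at this
  refine Finset.prod_involution (fun s _ => g s) ?_ ?_ ?_ ?_
  · intro s hs
    obtain ⟨v, -, rfl⟩ := mem_image.1 hs
    rcases h1 v with h | h
    · simp only [hcase v h]
      rw [hF]
      simp only [hprod, h]
      norm_num
    · simp only [hgv v h]
      rw [hF]
      simp only [hprod, h, (h2 v h).1]
      norm_num
  · intro s hs hne
    obtain ⟨v, -, rfl⟩ := mem_image.1 hs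
    rcases h1 v with h | h
    · exact absurd (by rw [hF]; simp only [hprod, h]) hne
    · simp only [hgv v h]
      intro heq
      obtain ⟨i, hi⟩ := ((hOeq v (w v)).1 heq).exists_nat_pow_eq
      exact (h2 v h).2.2.2 i hi
  · intro s hs
    obtain ⟨v, -, rfl⟩ := mem_image.1 hs
    rcases h1 v with h | h
    · simp only [hcase v h]
      exact hs
    · simp only [hgv v h]
      exact mem_image_of_mem _ (mem_univ _)
  · intro s hs
    obtain ⟨v, -, rfl⟩ := mem_image.1 hs
    rcases h1 v with h | h
    · simp only [hcase v h]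
    · simp only [hgv v h]
      rw [hgv _ (h2 v h).1, (h2 v h).2.1]

end Pool.Agent.helper16.GHS
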